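import Pool.Agent.H7.GT.Stmts

/-!
# Board `gt7`, row LIS: the local inequality with structure

The row also uses `TRVStmt` of the board `kq` (a clique of `un P` with `b` vertices is a transversal).
-/

set_option autoImplicit false

open Finset

namespace Pool.GT7

open Pool.Agent.H23.KT Pool.Agent.H46.KW Pool.KQ

theorem LIS_num {a lam L B kX kW kXu kWu S SX Smm T N x m η C2h Aw es TTr Pr R1 R2 Y K D r : ℝ}
    (f0 : 0 ≤ lam) (f0' : 0 ≤ L) (fr : 0 ≤ r) (fT : 0 ≤ T) (f1 : kX ≤ kW)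
    (f2 : S ≤ SX + r * N)
    (f3 : SX ≤ kX * (x - η / 2 * m) + Smm - (1 - η / 2) * T)
    (f4 : N ≤ (2 / a) * T + R1)
    (f5 : kWu ≤ kXu + (1 - η) * (1 + 2 * (K / a)) * (L * T) + 3 / 2 * C2h * Aw +
      D / a * (L * T) + R2)
    (f6 : L * Smm + lam * (Pr - kX) + kXu ≤ es) (f7 : kX ≤ Pr) (f7' : 0 ≤ x - η / 2 * m)
    (f8 : lam * (B - Pr) + L * (x - η / 2 * m) * Pr + Y ≤ TTr - es)
    (f9 : L * r * R1 + R2 + 3 / 2 * C2h * Aw ≤ Y)
    (f10 : -η / 2 + (1 - η) * (2 * (K / a)) + r * (2 / a) + D / a ≤ 0) :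
    lam * (B - kW) + L * S ≤ TTr - kWu := by
  have h1 : lam * (B - kW) ≤ lam * (B - kX) := mul_le_mul_of_nonneg_left (by linarith) f0
  have h2 : kX * (x - η / 2 * m) ≤ Pr * (x - η / 2 * m) := mul_le_mul_of_nonneg_right f7 f7'
  have h3 : r * N ≤ r * ((2 / a) * T + R1) := mul_le_mul_of_nonneg_left f4 fr
  have h4 : L * S ≤ L * (Pr * (x - η / 2 * m) + Smm - (1 - η / 2) * T + r * ((2 / a) * T + R1)) :=
    mul_le_mul_of_nonneg_left (by linarith) f0'
  have h5 : (L * T) * (-η / 2 + (1 - η) * (2 * (K / a)) + r * (2 / a) + D / a) ≤ 0 :=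
    mul_nonpos_of_nonneg_of_nonpos (mul_nonneg f0' fT) f10
  have h6 : L * (Pr * (x - η / 2 * m) + Smm - (1 - η / 2) * T + r * ((2 / a) * T + R1)) =
      L * (x - η / 2 * m) * Pr + L * Smm - (L * T) * (1 - η / 2) + (L * T) * (r * (2 / a)) +
        L * r * R1 := by ring
  have h7 : (1 - η) * (1 + 2 * (K / a)) * (L * T) = (L * T) * (1 - η) +
      (L * T) * ((1 - η) * (2 * (K / a))) := by ring
  have h8 : D / a * (L * T) = (L * T) * (D / a) := by ring
  have h9 : (L * T) * (-η / 2 + (1 - η) * (2 * (K / a)) + r * (2 / a) + D / a) =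
      (L * T) * (1 - η) - (L * T) * (1 - η / 2) + (L * T) * ((1 - η) * (2 * (K / a))) +
        (L * T) * (r * (2 / a)) + (L * T) * (D / a) := by ring
  have h10 : lam * (B - kX) = lam * (B - Pr) + lam * (Pr - kX) := by ring
  rw [h6] at h4
  rw [h7, h8] at f5
  rw [h9] at h5
  linarith

theorem LIS_card {V : Type} [DecidableEq V] {G : SimpleGraph V} {b : ℕ} {P : Fin b → Finset V}
    (hP : Par G P) : (un P).card = ∑ i, (P i).card := by
  unfold un
  exact card_biUnion (fun i _ j _ hij => hP.dis i j hij)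

theorem LIS_bal (p a r : ℕ) (hr : r ≤ p) :
    bal (p + 3) ((p + 3) * a + r) = a ^ (p + 3 - r) * (a + 1) ^ r := by
  unfold bal
  have h1 : ((p + 3) * a + r) / (p + 3) = a := by
    rw [Nat.mul_add_div (by omega), Nat.div_eq_of_lt (by omega), add_zero]
  have h2 : ((p + 3) * a + r) % (p + 3) = r := by
    rw [Nat.mul_add_mod, Nat.mod_eq_of_lt (by omega)]
  rw [h1, h2]

/-- The comparison of the factors. -/
theorem LIS_fac {Lm P3 cW κ η T kc : ℝ} (h1 : kc * P3 ≤ (1 - η) * cW * T)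
    (h2 : (1 - κ) * cW ≤ Lm * P3) (h3 : 0 ≤ κ) (h4 : κ ≤ 1 / 2) (h5 : 0 < P3) (h6 : 0 ≤ T)
    (h7 : 0 ≤ 1 - η) (h8 : 0 ≤ cW) : kc ≤ (1 - η) * (1 + 2 * κ) * (Lm * T) := by
  have h9 : cW ≤ (1 + 2 * κ) * (Lm * P3) := by
    have e1 : (1 + 2 * κ) * ((1 - κ) * cW) ≤ (1 + 2 * κ) * (Lm * P3) :=
      mul_le_mul_of_nonneg_left h2 (by linarith)
    have e2 : 0 ≤ κ * (1 - 2 * κ) * cW := mul_nonneg (mul_nonneg h3 (by linarith)) h8
    nlinarith
  have h10 : (1 - η) * cW * T ≤ (1 - η) * ((1 + 2 * κ) * (Lm * P3)) * T :=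
    mul_le_mul_of_nonneg_right (mul_le_mul_of_nonneg_left h9 h7) h6
  have h11 : kc * P3 ≤ ((1 - η) * (1 + 2 * κ) * (Lm * T)) * P3 := by
    calc kc * P3 ≤ _ := h1.trans h10
      _ = _ := by ring
  exact le_of_mul_le_mul_right h11 h5

/-- The bound for the cliques with `w` vertices. -/
theorem LIS_kw {A Lm P3 Aw kc T Q : ℝ} (h1 : kc * P3 ≤ Aw * (3 / 2 * P3 + Q * T))
    (h2 : A * Aw ≤ 2 * (Lm * P3)) (h3 : 0 < A) (h5 : 0 < P3) (h6 : 0 ≤ T) (hQ : 0 ≤ Q) :
    kc ≤ 3 / 2 * Aw + 2 * Q / A * (Lm * T) := by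
  have e1 : Aw ≤ 2 / A * (Lm * P3) := by
    rw [div_mul_eq_mul_div, le_div_iff₀ h3]
    linarith
  have e2 : Aw * (Q * T) ≤ (2 / A * (Lm * P3)) * (Q * T) :=
    mul_le_mul_of_nonneg_right e1 (mul_nonneg hQ h6)
  have e3 : kc * P3 ≤ (3 / 2 * Aw + 2 * Q / A * (Lm * T)) * P3 := by
    calc kc * P3 ≤ Aw * (3 / 2 * P3) + Aw * (Q * T) := by linarith [h1]
      _ ≤ Aw * (3 / 2 * P3) + (2 / A * (Lm * P3)) * (Q * T) := by linarith
      _ = _ := by ring
  exact le_of_mul_le_mul_right e3 h5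

/-- The cliques of `W = X ∪ U`. -/
theorem LIS_split {V : Type} [DecidableEq V] (G : SimpleGraph V) {X U : Finset V}
    (hXU : Disjoint X U) (j : ℕ) (r : ℝ) (F : Finset V → ℝ) (hF : ∀ L, F L ≤ r) :
    ∑ L ∈ clq G (X ∪ U) j, F L ≤ ∑ L ∈ clq G X j, F L +
      r * (((clq G (X ∪ U) j).filter (fun L => ¬ Disjoint L U)).card : ℝ) := by
  classical
  have h1 : clq G X j = (clq G (X ∪ U) j).filter (fun L => Disjoint L U) := by
    ext L
    rw [mem_filter, mem_clq, mem_clq]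
    constructor
    · rintro ⟨h1, h2⟩
      exact ⟨⟨h1.trans subset_union_left, h2⟩, hXU.mono_left h1⟩
    · rintro ⟨⟨h1, h2⟩, h3⟩
      refine ⟨fun y hy => ?_, h2⟩
      rcases mem_union.1 (h1 hy) with h | h
      · exact h
      · exact absurd h (disjoint_left.1 h3 hy)
  have h2 : ∑ L ∈ (clq G (X ∪ U) j).filter (fun L => ¬ Disjoint L U), F L ≤
      r * (((clq G (X ∪ U) j).filter (fun L => ¬ Disjoint L U)).card : ℝ) := by
    have := sum_le_card_nsmul ((clq G (X ∪ U) j).filter (fun L => ¬ Disjoint L U)) F r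
      (fun L _ => hF L)
    rw [nsmul_eq_mul] at this
    linarith
  rw [h1, ← sum_filter_add_sum_filter_not (clq G (X ∪ U) j) (fun L => Disjoint L U) F]
  linarith

theorem LIS_kX {V : Type} [DecidableEq V] {G : SimpleGraph V} {b : ℕ} {P : Fin b → Finset V}
    (h1 : TRVStmt) (hP : Par G P) : (kc G (un P) b : ℝ) ≤ ∏ i, ((P i).card : ℝ) := by
  classical
  rw [(h1 G P hP).1]
  have h2 : (trv G P).card ≤ ∏ i, (P i).card := by
    unfold trv
    exact (card_filter_le _ _).trans (Fintype.card_piFinset P).le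
  calc (((trv G P).card : ℕ) : ℝ) ≤ ((∏ i, (P i).card : ℕ) : ℝ) := by exact_mod_cast h2
    _ = _ := by push_cast; rfl

/-- The sum of the bounds of `XSP`. -/
theorem LIS_sum {V : Type} [DecidableEq V] (G : SimpleGraph V) (p r : ℕ) {X U : Finset V}
    {x η m : ℝ} (F M : Finset V → ℝ)
    (h : ∀ L ∈ clq G X (p + 3), F L + (1 - η) * ∑ z ∈ U, ww p r (nb G L z).card ≤
      x + M L - η / 2 * ∑ z ∈ U, ww p r (nb G L z).card - η / 2 * m) :
    ∑ L ∈ clq G X (p + 3), F L ≤ (kc G X (p + 3) : ℝ) * (x - η / 2 * m) +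
      ∑ L ∈ clq G X (p + 3), M L - (1 - η / 2) * ∑ z ∈ U, TZ G p r X z := by
  have h1 : ∑ z ∈ U, TZ G p r X z =
      ∑ L ∈ clq G X (p + 3), ∑ z ∈ U, ww p r (nb G L z).card := by
    unfold TZ
    exact sum_comm
  have h2 := sum_le_sum h
  rw [sum_add_distrib, sum_sub_distrib, sum_sub_distrib, sum_add_distrib, ← mul_sum, ← mul_sum,
    sum_const, sum_const, ← h1, nsmul_eq_mul, nsmul_eq_mul, ← kc_eq] at h2
  nlinarith

/-- The bound of the remainders. -/
theorem LIS_rem {A Lm W1 P3 c1 Aw Cn Mc r K4 K6 : ℝ} (p w h cX ch : ℕ)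
    (hA : 1 ≤ A) (hLm : 0 ≤ Lm) (hr : 0 ≤ r) (hAw : Aw = A ^ w) (hP3 : P3 = A ^ (p + 3))
    (hW1 : W1 = A ^ (w + 1)) (hL : Lm * P3 ≤ 2 * (c1 * W1)) (hch : h ≤ ch) (hCn : Cn = 2 ^ ch)
    (hcX : (cX : ℝ) + 1 ≤ Mc * A) (hcX2 : A / 2 ≤ (cX : ℝ) + 1)
    (hK4 : K4 = r * Cn * Mc ^ (p + 1) * (2 * c1)) (hK6 : K6 = Cn * Mc ^ w * 2) :
    Lm * r * (if h ≤ 1 then 0 else (2 : ℝ) ^ h * ((cX : ℝ) + 1) ^ (p + 1)) ≤
      (if h ≤ 1 then 0 else K4 * (Aw / A)) ∧
    (if h ≤ 2 then 0 else (2 : ℝ) ^ h * ((cX : ℝ) + 1) ^ w / ((cX : ℝ) + 1)) ≤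
      (if h ≤ 1 then 0 else K6 * (Aw / A)) := by
  have hA0 : 0 < A := by linarith
  have hcX0 : (0 : ℝ) < (cX : ℝ) + 1 := by positivity
  have h2 : (2 : ℝ) ^ h ≤ Cn := by
    rw [hCn]
    exact pow_le_pow_right₀ (by norm_num) hch
  have hCn0 : 0 ≤ Cn := le_trans (by positivity) h2
  have hMA : 0 ≤ Mc * A := hcX0.le.trans hcX
  have hMc : 0 ≤ Mc := by
    by_contra hneg
    push Not at hneg
    nlinarith
  constructor
  · split_ifs with h1
    · simp
    · have e1 : (2 : ℝ) ^ h * ((cX : ℝ) + 1) ^ (p + 1) ≤ Cn * (Mc * A) ^ (p + 1) :=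
        mul_le_mul h2 (pow_le_pow_left₀ hcX0.le hcX _) (by positivity) hCn0
      have e2 : Lm * A ^ (p + 1) ≤ 2 * c1 * (Aw / A) := by
        have e3 : Lm * A ^ (p + 1) * A ^ 2 ≤ 2 * c1 * (Aw / A) * A ^ 2 := by
          calc Lm * A ^ (p + 1) * A ^ 2 = Lm * P3 := by rw [hP3]; ring
            _ ≤ 2 * (c1 * W1) := hL
            _ = 2 * c1 * (Aw / A) * A ^ 2 := by
              rw [hW1, hAw]
              field_simp
              ring
        exact le_of_mul_le_mul_right e3 (by positivity)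
      calc Lm * r * ((2 : ℝ) ^ h * ((cX : ℝ) + 1) ^ (p + 1)) ≤
            Lm * r * (Cn * (Mc * A) ^ (p + 1)) :=
            mul_le_mul_of_nonneg_left e1 (mul_nonneg hLm hr)
        _ = (r * Cn * Mc ^ (p + 1)) * (Lm * A ^ (p + 1)) := by rw [mul_pow]; ring
        _ ≤ (r * Cn * Mc ^ (p + 1)) * (2 * c1 * (Aw / A)) :=
            mul_le_mul_of_nonneg_left e2 (by positivity)
        _ = K4 * (Aw / A) := by rw [hK4]; ring
  · split_ifs with h1 h1' h1'
    · exact le_rfl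
    · rw [hK6, hAw]
      positivity
    · omega
    · have e1 : (2 : ℝ) ^ h * ((cX : ℝ) + 1) ^ w ≤ Cn * (Mc * A) ^ w :=
        mul_le_mul h2 (pow_le_pow_left₀ hcX0.le hcX _) (by positivity) hCn0
      calc (2 : ℝ) ^ h * ((cX : ℝ) + 1) ^ w / ((cX : ℝ) + 1) ≤
            Cn * (Mc * A) ^ w / ((cX : ℝ) + 1) := div_le_div_of_nonneg_right e1 hcX0.le
        _ ≤ Cn * (Mc * A) ^ w / (A / 2) :=
            div_le_div_of_nonneg_left (by positivity) (by positivity) hcX2
        _ = K6 * (Aw / A) := by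
            rw [hK6, hAw, mul_pow]
            field_simp

/-- **(LIS)** -/
theorem LIS_thm (hCZC : CZCStmt) (hCCK : CCKStmt) (hKU2 : KU2Stmt) (hDKU : DKUStmt) (hDML : DMLStmt)
    (hXSP : XSPStmt) (hNET : NETStmt) (hSIZ : SIZStmt) (hXGR : XGRStmt) (hLMB : LMBStmt)
    (_hGCO : GCOStmt) (hTRV : TRVStmt) : LISStmt := by
  classical
  intro p w r hP
  obtain ⟨η, eZ, hη0, hη1, heZ0, heZ1, hCZ⟩ := hCZC p w r hP
  obtain ⟨eX, heX0, hXG⟩ := hXGR p w r hP η hη0 (by linarith)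
  obtain ⟨K, hK0, hLM⟩ := hLMB p w r hP
  obtain ⟨a3, hSZ⟩ := hSIZ p w r hP
  obtain ⟨a4, hNT⟩ := hNET p w r hP
  have he1 : e1 p / 2 ≤ 1 / 2 := by
    have h1 : (1 : ℝ) ≤ 16 * ((p : ℝ) + 3) ^ 3 := by
      have h2 : (1 : ℝ) ≤ ((p : ℝ) + 3) ^ 3 := one_le_pow₀ (by linarith [Nat.cast_nonneg (α := ℝ) p])
      linarith
    have h3 : e1 p ≤ 1 := by
      unfold e1
      rw [div_le_one (by linarith)]
      exact h1
    linarith
  set e : ℝ := min eZ eX with he
  have he0 : 0 < e := lt_min heZ0 heX0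
  have heZ : e ≤ eZ := min_le_left _ _
  have heX : e ≤ eX := min_le_right _ _
  have hee1 : e ≤ e1 p / 2 := heZ.trans heZ1
  refine ⟨e, he0, hee1.trans he1, ?_⟩
  intro C hC
  obtain ⟨a1, hCZ⟩ := hCZ C
  -- constants
  set ch : ℕ := ⌈C⌉₊ with hch
  have hCch : C ≤ (ch : ℝ) := Nat.le_ceil C
  set Cn : ℝ := 2 ^ ch with hCn
  have hCn0 : 0 < Cn := by rw [hCn]; positivity
  set Mc : ℝ := (p : ℝ) + r + 4 with hMc
  have hMc0 : 0 < Mc := by rw [hMc]; positivity
  set c1 : ℝ := ((p + 2).choose (w + 1) : ℝ) with hc1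
  have hc11 : 1 ≤ c1 := by
    rw [hc1]
    have : 1 ≤ (p + 2).choose (w + 1) := Nat.choose_pos (by have := hP.wp; omega)
    exact_mod_cast this
  set K4 : ℝ := (r : ℝ) * Cn * Mc ^ (p + 1) * (2 * c1) with hK4
  set K6 : ℝ := Cn * Mc ^ w * 2 with hK6
  have hK40 : 0 ≤ K4 := by rw [hK4]; positivity
  have hK60 : 0 ≤ K6 := by rw [hK6]; positivity
  set Q : ℝ := 2 ^ (p + 4) * ((p : ℝ) + 3) with hQ
  have hQ0 : 0 < Q := by rw [hQ]; positivity
  set D : ℝ := (C + 1) * Q with hD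
  have hD0 : 0 < D := by rw [hD]; positivity
  obtain ⟨a2, hXG⟩ := hXG e (K4 + K6 + 3 / 2 * (C * C)) he0 heX
  obtain ⟨aQ, haQ⟩ := exists_nat_ge (2 * K + K4 + K6 + 2 / η * (2 * K + 2 * r + D) + 1)
  refine ⟨max (max a1 a2) (max (max a3 a4) (max aQ 1)), ?_⟩
  intro a ha V _ G W P U hS hCB hWc
  have ha1 : a1 ≤ a := le_trans (le_trans (le_max_left _ _) (le_max_left _ _)) ha
  have ha2 : a2 ≤ a := le_trans (le_trans (le_max_right _ _) (le_max_left _ _)) ha
  have ha3 : a3 ≤ a := le_trans (le_trans (le_trans (le_max_left _ _) (le_max_left _ _))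
    (le_max_right _ _)) ha
  have ha4 : a4 ≤ a := le_trans (le_trans (le_trans (le_max_right _ _) (le_max_left _ _))
    (le_max_right _ _)) ha
  have ha5 : aQ ≤ a := le_trans (le_trans (le_trans (le_max_left _ _) (le_max_right _ _))
    (le_max_right _ _)) ha
  have ha6 : 1 ≤ a := le_trans (le_trans (le_trans (le_max_right _ _) (le_max_right _ _))
    (le_max_right _ _)) ha
  set A : ℝ := (a : ℝ) with hA
  have hA1 : 1 ≤ A := by rw [hA]; exact_mod_cast ha6
  have hA0 : 0 < A := by linarith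
  have hAQ : 2 * K + K4 + K6 + 2 / η * (2 * K + 2 * r + D) + 1 ≤ A :=
    haQ.trans (by rw [hA]; exact_mod_cast ha5)
  have hin0 : 0 ≤ 2 / η * (2 * K + 2 * r + D) := by positivity
  have hKA : K / A ≤ 1 / 2 := by
    rw [div_le_iff₀ hA0]
    linarith
  have hKA0 : 0 ≤ K / A := by positivity
  obtain ⟨l1, l2, l3, l4, l5, -⟩ := hLM a ha6
  set L := Lm p w r a with hLdef
  set lm := lam p w r a with hlm
  set P3 : ℝ := A ^ (p + 3) with hP3
  have hP30 : 0 < P3 := by rw [hP3]; positivity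
  have hL2 : L * P3 ≤ 2 * (c1 * A ^ (w + 1)) := by
    refine l2.trans (mul_le_mul_of_nonneg_right (by linarith) (by positivity))
  have hL3 : A * A ^ w ≤ 2 * (L * P3) := by
    have e1 : A * A ^ w ≤ c1 * A ^ (w + 1) := by
      calc A * A ^ w = 1 * A ^ (w + 1) := by ring
        _ ≤ c1 * A ^ (w + 1) := mul_le_mul_of_nonneg_right hc11 (by positivity)
    have e2 : 0 ≤ c1 * A ^ (w + 1) := by positivity
    have e3 : 1 / 2 * (c1 * A ^ (w + 1)) ≤ (1 - K / A) * (c1 * A ^ (w + 1)) :=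
      mul_le_mul_of_nonneg_right (by linarith) e2
    linarith [l1]
  -- the sets
  set X := un P with hX
  have hXU : Disjoint X U := by
    rw [hX]
    unfold un
    rw [disjoint_biUnion_left]
    exact fun i _ => hS.disU i
  have hWXU : W = X ∪ U := by
    ext y
    rw [hS.cov y, mem_union, hX]
    unfold un
    rw [mem_biUnion]
    constructor
    · rintro (h | ⟨i, h⟩)
      · exact Or.inr h
      · exact Or.inl ⟨i, mem_univ _, h⟩
    · rintro (⟨i, _, h⟩ | h)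
      · exact Or.inr ⟨i, h⟩
      · exact Or.inl h
  have hcW : W.card = X.card + U.card := by
    rw [hWXU]
    exact card_union_of_disjoint hXU
  have hcX : X.card = ∑ i, (P i).card := LIS_card hS.par
  have hUC : (U.card : ℝ) ≤ C := hS.cU
  have hUch : U.card ≤ ch := by
    have : (U.card : ℝ) ≤ (ch : ℝ) := hUC.trans hCch
    exact_mod_cast this
  have hr0 : (0 : ℝ) ≤ r := Nat.cast_nonneg r
  have hr1 : (1 : ℝ) ≤ r := by exact_mod_cast hP.r1
  have hcX1 : (X.card : ℝ) + 1 ≤ Mc * A := by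
    have e1 : X.card + 1 ≤ (p + 3) * a + r + 1 := by omega
    have e2 : (X.card : ℝ) + 1 ≤ ((p : ℝ) + 3) * A + r + 1 := by
      rw [hA]; exact_mod_cast e1
    have e3 : (r : ℝ) ≤ r * A := le_mul_of_one_le_right hr0 hA1
    have e4 : Mc * A = ((p : ℝ) + 3) * A + r * A + A := by rw [hMc]; ring
    rw [e4]
    linarith
  have hcX2 : A / 2 ≤ (X.card : ℝ) + 1 := by
    have e1 : (1 - e) * A ≤ ((P 0).card : ℝ) := hS.lo 0
    have e2 : (P 0).card ≤ X.card := card_le_card (by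
      rw [hX]; unfold un
      exact subset_biUnion_of_mem P (mem_univ 0))
    have e3 : ((P 0).card : ℝ) ≤ (X.card : ℝ) := by exact_mod_cast e2
    have e4 : e ≤ 1 / 2 := hee1.trans he1
    have e5 : 1 / 2 * A ≤ (1 - e) * A := mul_le_mul_of_nonneg_right (by linarith) hA0.le
    linarith
  -- the missing vertices
  set x : ℕ := (p + 3) * a + r - X.card with hx
  have hxX : X.card + x = (p + 3) * a + r := by omega
  have hxU : U.card ≤ x := by omega
  have hxR : ((((p + 3) * a + r : ℕ) : ℝ) - (X.card : ℝ)) = (x : ℝ) := by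
    rw [← hxX]
    push_cast
    ring
  have hCCKz := hCCK G p w r a e C W P U hP hS he0.le hee1 hCB
  have hTZ0 : ∀ z ∈ U, 0 ≤ TZ G p r X z := by
    intro z hz
    have h1 := (hCCKz z hz).2.2.2
    have h2 : (0 : ℝ) ≤ (cc G p (un P) (p + 2) z : ℝ) + 1 / 2 * cc G p (un P) (p + 1) z := by
      positivity
    exact h2.trans h1
  set T : ℝ := ∑ z ∈ U, TZ G p r X z with hT
  have hT0 : 0 ≤ T := sum_nonneg hTZ0
  have hLT0 : 0 ≤ L * T := mul_nonneg l4.le hT0
  -- f4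
  have f4 : ((((clq G (X ∪ U) (p + 3)).filter (fun L => ¬ Disjoint L U)).card : ℕ) : ℝ) ≤
      2 / A * T + (if U.card ≤ 1 then 0 else (2 : ℝ) ^ U.card * ((X.card : ℝ) + 1) ^ (p + 1)) := by
    have h1 := hDML G X U p hXU
    have h2 : ∑ z ∈ U, (kc G (nb G X z) (p + 2) : ℝ) ≤ 2 / A * T := by
      rw [hT, mul_sum]
      refine sum_le_sum fun z hz => ?_
      obtain ⟨-, -, c3, c4⟩ := hCCKz z hz
      have h3 : (0 : ℝ) ≤ 1 / 2 * (cc G p (un P) (p + 1) z : ℝ) := by positivity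
      have h4 : A / 2 * (kc G (nb G X z) (p + 2) : ℝ) ≤ TZ G p r X z := by
        rw [hX, hA]
        linarith
      calc (kc G (nb G X z) (p + 2) : ℝ) = 2 / A * (A / 2 * (kc G (nb G X z) (p + 2) : ℝ)) := by
            field_simp
        _ ≤ 2 / A * TZ G p r X z := mul_le_mul_of_nonneg_left h4 (by positivity)
    linarith
  -- f5
  have f5 : (kc G W (w + 2) : ℝ) ≤ (kc G X (w + 2) : ℝ) +
      (1 - η) * (1 + 2 * (K / A)) * (L * T) +
      3 / 2 * (((U.card : ℝ)) * ((U.card : ℝ) - 1) / 2) * A ^ w + D / A * (L * T) +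
      (if U.card ≤ 2 then 0 else (2 : ℝ) ^ U.card * ((X.card : ℝ) + 1) ^ w /
        ((X.card : ℝ) + 1)) := by
    have h1 := hDKU G X U w hXU
    rw [← hWXU] at h1
    have h2 : ∑ z ∈ U, (kc G (nb G X z) (w + 1) : ℝ) ≤
        (1 - η) * (1 + 2 * (K / A)) * (L * T) := by
      have e1 : (1 - η) * (1 + 2 * (K / A)) * (L * T) =
          ∑ z ∈ U, (1 - η) * (1 + 2 * (K / A)) * (L * TZ G p r X z) := by
        rw [← mul_sum, ← mul_sum]
      rw [e1]
      refine sum_le_sum fun z hz => ?_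
      have e2 := hCZ a ha1 G e W P U hS he0.le heZ hCB z hz
      exact LIS_fac e2 l1 hKA0 hKA hP30 (hTZ0 z hz) (by linarith) (by positivity)
    have h3 : ∑ z ∈ U, (kc G (nb G X z) w : ℝ) ≤
        (U.card : ℝ) * (3 / 2 * A ^ w) + 2 * Q / A * (L * T) := by
      have e1 : (U.card : ℝ) * (3 / 2 * A ^ w) + 2 * Q / A * (L * T) =
          ∑ z ∈ U, (3 / 2 * A ^ w + 2 * Q / A * (L * TZ G p r X z)) := by
        rw [sum_add_distrib, sum_const, nsmul_eq_mul, ← mul_sum, ← mul_sum]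
      rw [e1]
      refine sum_le_sum fun z hz => ?_
      have e2 := hKU2 G p w r a e C W P U hP hS he0.le hee1 hCB z hz
      exact LIS_kw e2 hL3 hA0 hP30 (hTZ0 z hz) hQ0.le
    have h4 : ((U.card : ℝ) - 1) / 2 * ∑ z ∈ U, (kc G (nb G X z) w : ℝ) ≤
        3 / 2 * (((U.card : ℝ)) * ((U.card : ℝ) - 1) / 2) * A ^ w + D / A * (L * T) := by
      rcases Nat.eq_zero_or_pos U.card with h0 | h0
      · have hU : U = ∅ := card_eq_zero.1 h0
        have : (0 : ℝ) ≤ D / A * (L * T) := mul_nonneg (by positivity) hLT0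
        rw [hU] at *
        simp only [sum_empty, card_empty, Nat.cast_zero, mul_zero, zero_mul, zero_div]
        simpa using this
      · have h5 : (1 : ℝ) ≤ (U.card : ℝ) := by exact_mod_cast h0
        have h6 : ((U.card : ℝ) - 1) / 2 * ∑ z ∈ U, (kc G (nb G X z) w : ℝ) ≤
            ((U.card : ℝ) - 1) / 2 * ((U.card : ℝ) * (3 / 2 * A ^ w) + 2 * Q / A * (L * T)) :=
          mul_le_mul_of_nonneg_left h3 (by linarith)
        have h7 : ((U.card : ℝ) - 1) * Q / A * (L * T) ≤ D / A * (L * T) := by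
          refine mul_le_mul_of_nonneg_right ?_ hLT0
          refine div_le_div_of_nonneg_right ?_ hA0.le
          rw [hD]
          exact mul_le_mul_of_nonneg_right (by linarith) hQ0.le
        calc _ ≤ _ := h6
          _ = 3 / 2 * (((U.card : ℝ)) * ((U.card : ℝ) - 1) / 2) * A ^ w +
              ((U.card : ℝ) - 1) * Q / A * (L * T) := by ring
          _ ≤ _ := by linarith
    linarith
  -- f6
  have f6 := hNT a ha4 G e P he0.le hee1 hS.par (fun i => ⟨hS.lo i, hS.hi i⟩) hS.mis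
  have f7 := LIS_kX hTRV hS.par
  -- f3
  set m : ℝ := max ((x : ℝ) - r) 0 with hm
  have f3 := LIS_sum G p r (X := X) (U := U) (x := x) (η := η) (m := m)
    (fun L => min (r : ℝ) (XX G p r a W L)) (fun L => mm G p r X L) (by
      intro L hL
      have h1 := hXSP G p w r a e C η W P U hP hS he0.le hee1 hCB hWc hη0.le (by linarith) L hL
      rw [← hX, hxR] at h1
      exact h1)
  have f2 := LIS_split G hXU (p + 3) r (fun L => min (r : ℝ) (XX G p r a W L))
    (fun L => min_le_left _ _)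
  rw [← hWXU] at f2 f4
  have f1 : (kc G X (p + 3) : ℝ) ≤ kc G W (p + 3) := by
    have : X ⊆ W := by rw [hWXU]; exact subset_union_left
    exact_mod_cast kc_mono G this (p + 3)
  have hx0 : (0 : ℝ) ≤ x := Nat.cast_nonneg x
  have f7' : 0 ≤ (x : ℝ) - η / 2 * m := by
    have h1 : m ≤ x := by
      rw [hm]
      exact max_le (by linarith) hx0
    have h2 : η / 2 * m ≤ η / 2 * x := mul_le_mul_of_nonneg_left h1 (by linarith)
    have h3 : η / 2 * (x : ℝ) ≤ 1 * x := mul_le_mul_of_nonneg_right (by linarith) hx0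
    linarith
  -- the remainders
  obtain ⟨R1b, R2b⟩ := LIS_rem (A := A) (Lm := L) (W1 := A ^ (w + 1)) (P3 := P3) (c1 := c1)
    (Aw := A ^ w) (Cn := Cn) (Mc := Mc) (r := r) (K4 := K4) (K6 := K6) p w U.card X.card ch
    hA1 l4.le hr0 rfl rfl rfl hL2 hUch rfl hcX1 hcX2 rfl rfl
  have f10 : -η / 2 + (1 - η) * (2 * (K / A)) + r * (2 / A) + D / A ≤ 0 := by
    have h1 : 2 * K + 2 * r + D ≤ η / 2 * A := by
      have h2 : 2 / η * (2 * K + 2 * r + D) ≤ A := by linarith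
      calc 2 * K + 2 * r + D = η / 2 * (2 / η * (2 * K + 2 * r + D)) := by
            field_simp
        _ ≤ η / 2 * A := mul_le_mul_of_nonneg_left h2 (by positivity)
    have h3 : (1 - η) * (2 * (K / A)) ≤ 2 * (K / A) :=
      mul_le_of_le_one_left (by linarith) (by linarith)
    have h4 : (2 * K + 2 * r + D) / A ≤ η / 2 := by
      rw [div_le_iff₀ hA0]
      exact h1
    have h5 : (2 * K + 2 * r + D) / A = 2 * (K / A) + r * (2 / A) + D / A := by ring
    linarith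
  have hbal : ((bal (p + 3) ((p + 3) * a + r) : ℕ) : ℝ) = A ^ (p + 3 - r) * (A + 1) ^ r := by
    rw [LIS_bal p a r hP.rp, hA]
    push_cast
    rfl
  have hszs : ∑ i, sz P i + x = (p + 3) * a + r := by
    rw [← hxX, hcX]
    rfl
  have hAw0 : 0 ≤ A ^ w := by positivity
  have hh2 : (U.card : ℝ) * ((U.card : ℝ) - 1) / 2 ≤ (x.choose 2 : ℝ) := by
    rw [← Nat.cast_choose_two]
    exact_mod_cast Nat.choose_le_choose 2 hxU
  unfold LIN
  rw [hbal]
  rcases Nat.lt_or_ge r x with hxr | hxr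
  · -- more than r vertices missing
    have hmx : m = (x : ℝ) - r := by
      rw [hm]
      refine max_eq_left ?_
      have : (r : ℝ) ≤ x := by exact_mod_cast hxr.le
      linarith
    have f8 := hXG a ha2 x hxr (sz P) hszs (fun i => ⟨hS.lo i, hS.hi i⟩)
    rw [← hmx] at f8
    refine LIS_num (a := A) (K := K) (D := D) (r := r) (η := η) (m := m) (x := x) (T := T)
      (es := es (sz P) (w + 2)) (Y := (K4 + K6 + 3 / 2 * (C * C)) * A ^ w)
      (Pr := ∏ i, ((P i).card : ℝ)) l3.le l4.le hr0 hT0 f1 f2 f3 f4 f5 f6 f7 f7' f8 ?_ f10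
    have g1 : (if U.card ≤ 1 then 0 else K4 * (A ^ w / A)) ≤ K4 * A ^ w := by
      have : A ^ w / A ≤ A ^ w := div_le_self hAw0 hA1
      split_ifs
      · positivity
      · exact mul_le_mul_of_nonneg_left this hK40
    have g2 : (if U.card ≤ 1 then 0 else K6 * (A ^ w / A)) ≤ K6 * A ^ w := by
      have : A ^ w / A ≤ A ^ w := div_le_self hAw0 hA1
      split_ifs
      · positivity
      · exact mul_le_mul_of_nonneg_left this hK60
    have g3 : 3 / 2 * ((U.card : ℝ) * ((U.card : ℝ) - 1) / 2) * A ^ w ≤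
        3 / 2 * (C * C) * A ^ w := by
      refine mul_le_mul_of_nonneg_right ?_ hAw0
      have h1 : (0 : ℝ) ≤ U.card := Nat.cast_nonneg _
      have h2 : (U.card : ℝ) * (U.card : ℝ) ≤ C * C := mul_le_mul hUC hUC h1 hC.le
      have h3 : (U.card : ℝ) * ((U.card : ℝ) - 1) = (U.card : ℝ) * (U.card : ℝ) - U.card := by
        ring
      have h4 : 0 ≤ C * C := mul_nonneg hC.le hC.le
      rw [h3]
      linarith
    calc _ ≤ K4 * A ^ w + K6 * A ^ w + 3 / 2 * (C * C) * A ^ w := by linarith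
      _ = _ := by ring
  · have hmx : m = 0 := by
      rw [hm]
      refine max_eq_right ?_
      have : (x : ℝ) ≤ r := by exact_mod_cast hxr
      linarith
    have hsz2 : ∀ i, a ≤ 2 * sz P i ∧ sz P i ≤ 2 * a := by
      intro i
      have h1 := hS.lo i
      have h2 := hS.hi i
      have h3 : e ≤ 1 / 2 := hee1.trans he1
      unfold sz
      have h4 : 1 / 2 * A ≤ (1 - e) * A := mul_le_mul_of_nonneg_right (by linarith) hA0.le
      have h5 : (1 + e) * A ≤ 2 * A := mul_le_mul_of_nonneg_right (by linarith) hA0.le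
      constructor
      · have : (a : ℝ) ≤ 2 * ((P i).card : ℝ) := by
          rw [← hA]
          linarith
        exact_mod_cast this
      · have : ((P i).card : ℝ) ≤ 2 * (a : ℝ) := by
          rw [← hA]
          linarith
        exact_mod_cast this
    have f8 := hSZ a ha3 x hxr (sz P) hszs hsz2
    have f8' : lm * (A ^ (p + 3 - r) * (A + 1) ^ r - ∏ i, ((P i).card : ℝ)) +
        L * ((x : ℝ) - η / 2 * m) * ∏ i, ((P i).card : ℝ) + 5 / 2 * (x.choose 2 : ℝ) * A ^ w ≤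
        (TT (p + 3) (w + 2) a r : ℝ) - es (sz P) (w + 2) := by
      rw [hmx, mul_zero, sub_zero]
      exact f8
    refine LIS_num (a := A) (K := K) (D := D) (r := r) (η := η) (m := m) (x := x) (T := T)
      (es := es (sz P) (w + 2)) (Y := 5 / 2 * (x.choose 2 : ℝ) * A ^ w)
      (Pr := ∏ i, ((P i).card : ℝ)) l3.le l4.le hr0 hT0 f1 f2 f3 f4 f5 f6 f7 f7' f8' ?_ f10
    have g3 : 3 / 2 * ((U.card : ℝ) * ((U.card : ℝ) - 1) / 2) * A ^ w ≤
        3 / 2 * (x.choose 2 : ℝ) * A ^ w := by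
      refine mul_le_mul_of_nonneg_right ?_ hAw0
      linarith
    have g4 : (if U.card ≤ 1 then 0 else K4 * (A ^ w / A)) +
        (if U.card ≤ 1 then 0 else K6 * (A ^ w / A)) ≤ (x.choose 2 : ℝ) * A ^ w := by
      split_ifs with h1
      · rw [add_zero]
        positivity
      · have h2 : 1 ≤ x.choose 2 := Nat.choose_pos (by omega)
        have h3 : (1 : ℝ) ≤ (x.choose 2 : ℝ) := by exact_mod_cast h2
        have h4 : (K4 + K6) * (A ^ w / A) ≤ A ^ w := by
          rw [mul_div_assoc', div_le_iff₀ hA0, mul_comm]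
          exact mul_le_mul_of_nonneg_left (by linarith) hAw0
        have h5 : 1 * A ^ w ≤ (x.choose 2 : ℝ) * A ^ w := mul_le_mul_of_nonneg_right h3 hAw0
        have h6 : (K4 + K6) * (A ^ w / A) = K4 * (A ^ w / A) + K6 * (A ^ w / A) := by ring
        rw [← h6]
        linarith
    calc _ ≤ (x.choose 2 : ℝ) * A ^ w + 3 / 2 * (x.choose 2 : ℝ) * A ^ w := by linarith
      _ = _ := by ring

end Pool.GT7
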