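import Pool.Agent.H7.GT.Stmts

/-!
# Board `gt7`, row MMC: the Moon-Moser chain
-/

set_option autoImplicit false

open Finset

namespace Pool.GT7

open Pool.Agent.H23.KT Pool.Agent.H46.KW Pool.KQ

section

variable {V : Type} [DecidableEq V] (G : SimpleGraph V)

theorem MMC_nz {W L : Finset V} {s : ℕ} (hL : L ∈ clq G W (s + 1)) :
    ∑ z ∈ L, nz G W L z ≤ s * (cn G W L).card + W.card := by
  classical
  rw [mem_clq] at hL
  have hLc := hL.2.1
  have h1 : ∀ z ∈ L, nz G W L z =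
      ∑ y ∈ W, (if (∀ t ∈ L.erase z, G.Adj t y) then 1 else 0) := by
    intro z _
    unfold nz cn
    rw [card_filter]
  have h2 : (cn G W L).card = ∑ y ∈ W, (if (∀ t ∈ L, G.Adj t y) then 1 else 0) := by
    unfold cn
    rw [card_filter]
  rw [sum_congr rfl h1, sum_comm, h2, mul_sum, card_eq_sum_ones, ← sum_add_distrib]
  refine sum_le_sum fun y _ => ?_
  rw [← card_filter]
  by_cases hy : ∀ t ∈ L, G.Adj t y
  · rw [if_pos hy, mul_one]
    exact (card_filter_le _ _).trans hLc.le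
  · rw [if_neg hy, mul_zero, zero_add, card_le_one]
    intro z hz z' hz'
    rw [mem_filter] at hz hz'
    by_contra hne
    apply hy
    intro t ht
    by_cases h : t = z
    · exact hz'.2 t (mem_erase.2 ⟨fun h' => hne (h ▸ h'), ht⟩)
    · exact hz.2 t (mem_erase.2 ⟨h, ht⟩)

theorem MMC_mm (W : Finset V) (s : ℕ) :
    ((s + 1) * kc G W (s + 1)) ^ 2 ≤
      kc G W s * (s * (s + 2) * kc G W (s + 2) + W.card * kc G W (s + 1)) := by
  refine (facets_cs (G := G) W s).trans (Nat.mul_le_mul_left _ ?_)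
  have h1 : ∑ L ∈ clq G W (s + 1), ∑ z ∈ L, nz G W L z ≤
      ∑ L ∈ clq G W (s + 1), (s * (cn G W L).card + W.card) :=
    sum_le_sum fun L hL => MMC_nz G hL
  have h2 := sum_card_cn (G := G) W (s + 1)
  rw [sum_add_distrib, ← mul_sum, h2, sum_const, smul_eq_mul, ← kc_eq] at h1
  refine h1.trans (le_of_eq ?_)
  ring

/-- The real form. -/
theorem MMC_mmr (W : Finset V) (s : ℕ) :
    (((s : ℝ) + 1) * kc G W (s + 1)) ^ 2 ≤
      kc G W s * ((s : ℝ) * (s + 2) * kc G W (s + 2) + W.card * kc G W (s + 1)) := by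
  exact_mod_cast MMC_mm G W s

/-- Upper bounds. -/
theorem MMC_up {W : Finset V} {b a : ℕ} (hCB : CB G W b) (hW : W.card ≤ b * (a + 1)) :
    ∀ j s : ℕ, s + j = b → ((s : ℝ) + 1) * kc G W (s + 1) ≤
      ((b : ℝ) - s) * ((a : ℝ) + 1) * kc G W s := by
  intro j
  induction j with
  | zero =>
    intro s hs
    have h1 : kc G W (s + 1) = 0 := kc_eq_zero_of_CB hCB (by omega)
    have h2 : (b : ℝ) - s = 0 := by
      rw [← hs]
      push_cast
      ring
    rw [h1, h2]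
    simp
  | succ j ih =>
    intro s hs
    have h1 := ih (s + 1) (by omega)
    have h2 := MMC_mmr G W s
    have hW' : (W.card : ℝ) ≤ (b : ℝ) * ((a : ℝ) + 1) := by exact_mod_cast hW
    set k0 : ℝ := (kc G W s : ℝ) with hk0
    set k1 : ℝ := (kc G W (s + 1) : ℝ) with hk1
    set k2 : ℝ := (kc G W (s + 2) : ℝ) with hk2
    have k00 : 0 ≤ k0 := by rw [hk0]; positivity
    have k10 : 0 ≤ k1 := by rw [hk1]; positivity
    have hs0 : (0 : ℝ) ≤ s := Nat.cast_nonneg s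
    have hbs : (0 : ℝ) ≤ (b : ℝ) - s := by
      rw [← hs]
      push_cast
      linarith [Nat.cast_nonneg (α := ℝ) j]
    have ha0 : (0 : ℝ) ≤ (a : ℝ) + 1 := by positivity
    push_cast at h1
    have h1' : ((s : ℝ) + 2) * k2 ≤ ((b : ℝ) - (s + 1)) * ((a : ℝ) + 1) * k1 := by
      calc ((s : ℝ) + 2) * k2 = ((s : ℝ) + 1 + 1) * k2 := by ring
        _ ≤ _ := h1
    rcases k10.eq_or_lt with h | h
    · rw [← h, mul_zero]
      positivity
    · have e1 : (s : ℝ) * (s + 2) * k2 ≤ s * (((b : ℝ) - (s + 1)) * ((a : ℝ) + 1) * k1) := by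
        rw [mul_assoc]
        exact mul_le_mul_of_nonneg_left h1' hs0
      have e2 : (W.card : ℝ) * k1 ≤ (b : ℝ) * ((a : ℝ) + 1) * k1 :=
        mul_le_mul_of_nonneg_right hW' k10
      have e3 : k0 * ((s : ℝ) * (s + 2) * k2 + W.card * k1) ≤
          k0 * (s * (((b : ℝ) - (s + 1)) * ((a : ℝ) + 1) * k1) + (b : ℝ) * ((a : ℝ) + 1) * k1) :=
        mul_le_mul_of_nonneg_left (by linarith) k00
      have e4 : (((s : ℝ) + 1) * k1) * (((s : ℝ) + 1) * k1) ≤
          (((b : ℝ) - s) * ((a : ℝ) + 1) * k0) * (((s : ℝ) + 1) * k1) := by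
        calc (((s : ℝ) + 1) * k1) * (((s : ℝ) + 1) * k1) = (((s : ℝ) + 1) * k1) ^ 2 := by ring
          _ ≤ _ := h2.trans e3
          _ = _ := by ring
      exact le_of_mul_le_mul_right e4 (by positivity)

theorem MMC_up2 {W : Finset V} {b a : ℕ} (hCB : CB G W b) (hW : W.card ≤ b * (a + 1)) :
    ∀ s : ℕ, s ≤ b → (kc G W s : ℝ) ≤ (b.choose s : ℝ) * ((a : ℝ) + 1) ^ s := by
  intro s
  induction s with
  | zero =>
    intro _
    rw [kc_zero]
    simp
  | succ s ih =>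
    intro hs
    have h1 := ih (by omega)
    have h2 := MMC_up G hCB hW (b - s) s (by omega)
    have hbs : (0 : ℝ) ≤ (b : ℝ) - s := by
      have : (s : ℝ) ≤ b := by exact_mod_cast (by omega : s ≤ b)
      linarith
    have h3 : ((s : ℝ) + 1) * (b.choose (s + 1) : ℝ) = ((b : ℝ) - s) * (b.choose s : ℝ) := by
      have := Nat.choose_succ_right_eq b s
      have h4 : ((b.choose (s + 1) * (s + 1) : ℕ) : ℝ) = ((b.choose s * (b - s) : ℕ) : ℝ) := by
        rw [this]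
      push_cast [Nat.cast_sub (by omega : s ≤ b)] at h4
      linarith
    have h5 : ((s : ℝ) + 1) * kc G W (s + 1) ≤
        ((s : ℝ) + 1) * ((b.choose (s + 1) : ℝ) * ((a : ℝ) + 1) ^ (s + 1)) := by
      calc ((s : ℝ) + 1) * kc G W (s + 1) ≤ ((b : ℝ) - s) * ((a : ℝ) + 1) * kc G W s := h2
        _ ≤ ((b : ℝ) - s) * ((a : ℝ) + 1) * ((b.choose s : ℝ) * ((a : ℝ) + 1) ^ s) :=
            mul_le_mul_of_nonneg_left h1 (by positivity)
        _ = (((b : ℝ) - s) * (b.choose s : ℝ)) * ((a : ℝ) + 1) ^ (s + 1) := by ring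
        _ = _ := by rw [← h3]; ring
    exact le_of_mul_le_mul_left h5 (by positivity)

end

theorem MMC_pow {A : ℝ} (hA : 1 ≤ A) (t : ℕ) :
    A * (A + 1) ^ t ≤ A ^ (t + 1) + 3 ^ t * A ^ t := by
  induction t with
  | zero => simp
  | succ t ih =>
    have h0 : (0 : ℝ) ≤ A ^ t := by positivity
    have h1 : A ^ t ≤ A ^ (t + 1) := pow_le_pow_right₀ hA (by omega)
    have h3 : (1 : ℝ) ≤ 3 ^ t := one_le_pow₀ (by norm_num)
    have h4 : (3 : ℝ) ^ t * A ^ t ≤ 3 ^ t * A ^ (t + 1) :=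
      mul_le_mul_of_nonneg_left h1 (by positivity)
    have h5 : 1 * A ^ (t + 1) ≤ 3 ^ t * A ^ (t + 1) := mul_le_mul_of_nonneg_right h3 (by positivity)
    calc A * (A + 1) ^ (t + 1) = (A + 1) * (A * (A + 1) ^ t) := by ring
      _ ≤ (A + 1) * (A ^ (t + 1) + 3 ^ t * A ^ t) := mul_le_mul_of_nonneg_left ih (by linarith)
      _ = A ^ (t + 1 + 1) + 1 * A ^ (t + 1) + 3 ^ t * A ^ (t + 1) + 3 ^ t * A ^ t := by ring
      _ ≤ A ^ (t + 1 + 1) + 3 ^ t * A ^ (t + 1) + 3 ^ t * A ^ (t + 1) + 3 ^ t * A ^ (t + 1) := by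
          linarith
      _ = _ := by ring

theorem MMC_choose {b t : ℕ} (h : t ≤ b) :
    ((t : ℝ) + 1) * (b.choose (t + 1) : ℝ) = ((b : ℝ) - t) * (b.choose t : ℝ) := by
  have := Nat.choose_succ_right_eq b t
  have h4 : ((b.choose (t + 1) * (t + 1) : ℕ) : ℝ) = ((b.choose t * (b - t) : ℕ) : ℝ) := by
    rw [this]
  push_cast [Nat.cast_sub h] at h4
  linarith

/-- The first step of the chain (pure numbers). -/
theorem MMC_base {A D bt tt c0 c1 k0 k1 : ℝ} (t : ℕ) (hA : 1 ≤ A) (hD : 0 ≤ D) (hbt : 1 ≤ bt)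
    (htt : 0 ≤ tt) (hc0 : 1 ≤ c0) (hc : tt * c1 = bt * c0) (h1 : c1 * A ^ (t + 1) ≤ k1 + D * A ^ t)
    (h2 : k0 ≤ c0 * (A + 1) ^ t) (hAC : bt * 3 ^ t + tt * D ≤ A) :
    (bt * A - (bt * 3 ^ t + tt * D)) * k0 ≤ tt * k1 := by
  set C' : ℝ := bt * 3 ^ t + tt * D with hC'
  have hC0 : 0 ≤ C' := by rw [hC']; positivity
  have hE : 0 ≤ bt * A - C' := by
    have : 1 * A ≤ bt * A := mul_le_mul_of_nonneg_right hbt (by linarith)
    linarith
  have e1 : (bt * A - C') * k0 ≤ (bt * A - C') * (c0 * (A + 1) ^ t) :=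
    mul_le_mul_of_nonneg_left h2 hE
  have e2 : bt * c0 * (A * (A + 1) ^ t) ≤ bt * c0 * (A ^ (t + 1) + 3 ^ t * A ^ t) :=
    mul_le_mul_of_nonneg_left (MMC_pow hA t) (by positivity)
  have e3 : C' * c0 * A ^ t ≤ C' * c0 * (A + 1) ^ t :=
    mul_le_mul_of_nonneg_left (pow_le_pow_left₀ (by linarith) (by linarith) t) (by positivity)
  have e4 : tt * (c1 * A ^ (t + 1)) ≤ tt * (k1 + D * A ^ t) := mul_le_mul_of_nonneg_left h1 htt
  have e5 : tt * (c1 * A ^ (t + 1)) = bt * c0 * A ^ (t + 1) := by rw [← hc]; ring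
  have e6 : bt * c0 * (3 ^ t * A ^ t) + tt * D * A ^ t ≤ C' * c0 * A ^ t := by
    have e7 : tt * D * A ^ t ≤ tt * D * A ^ t * c0 :=
      le_mul_of_one_le_right (by positivity) hc0
    have e8 : C' * c0 * A ^ t = bt * c0 * (3 ^ t * A ^ t) + tt * D * A ^ t * c0 := by
      rw [hC']; ring
    rw [e8]
    linarith
  calc (bt * A - C') * k0 ≤ (bt * A - C') * (c0 * (A + 1) ^ t) := e1
    _ = bt * c0 * (A * (A + 1) ^ t) - C' * c0 * (A + 1) ^ t := by ring
    _ ≤ bt * c0 * (A ^ (t + 1) + 3 ^ t * A ^ t) - C' * c0 * A ^ t := by linarith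
    _ = bt * c0 * A ^ (t + 1) + bt * c0 * (3 ^ t * A ^ t) - C' * c0 * A ^ t := by ring
    _ ≤ bt * c0 * A ^ (t + 1) - tt * D * A ^ t := by linarith
    _ ≤ tt * k1 := by rw [← e5]; linarith

/-- The step of the chain (pure numbers). `T = t`. -/
theorem MMC_step {A b T C' D c1 c2 k0 k1 k2 n : ℝ} (t : ℕ) (hA : 1 ≤ A) (hb : 0 ≤ b)
    (hT : 1 ≤ T) (hC : 0 ≤ C') (hD : 0 ≤ D) (hc1 : 1 ≤ c1) (hbT : 1 ≤ b - T - 1)
    (hc : (T + 2) * c2 = (b - T - 1) * c1)
    (hn : n ≤ b * (A + 1)) (hk0 : 0 ≤ k0) (hk2 : 0 ≤ k2)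
    (h1 : ((T + 1) * k1) ^ 2 ≤ k0 * (T * (T + 2) * k2 + n * k1))
    (h2 : ((b - T) * A - C') * k0 ≤ (T + 1) * k1)
    (h3 : c1 * A ^ (t + 1) ≤ k1 + D * A ^ t) (hAC : (T + 1) * C' + b ≤ A) (hAD : D < A) :
    ((b - (T + 1)) * A - ((T + 1) * C' + b)) * k1 ≤ (T + 2) * k2 ∧
    c2 * A ^ (t + 2) ≤ k2 + (((T + 1) * C' + b) * c1 + (b - T - 1) * D) * A ^ (t + 1) := by
  have hA0 : 0 < A := by linarith
  have hk1 : 0 < k1 := by
    have e1 : D * A ^ t < A * A ^ t := mul_lt_mul_of_pos_right hAD (by positivity)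
    have e2 : 1 * A ^ (t + 1) ≤ c1 * A ^ (t + 1) := mul_le_mul_of_nonneg_right hc1 (by positivity)
    have e3 : A * A ^ t = 1 * A ^ (t + 1) := by ring
    linarith
  have hk0' : 0 < k0 := by
    rcases hk0.eq_or_lt with h | h
    · exfalso
      rw [← h, zero_mul] at h1
      have : 0 < ((T + 1) * k1) ^ 2 := by positivity
      linarith
    · exact h
  set C2 : ℝ := (T + 1) * C' + b with hC2
  have hC20 : 0 ≤ C2 := by rw [hC2]; positivity
  have f1 : ((b - T) * A - C') * ((T + 1) * k1) ≤ T * (T + 2) * k2 + n * k1 := by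
    have e1 : (((b - T) * A - C') * ((T + 1) * k1)) * k0 ≤
        (T * (T + 2) * k2 + n * k1) * k0 := by
      calc (((b - T) * A - C') * ((T + 1) * k1)) * k0 =
            (((b - T) * A - C') * k0) * ((T + 1) * k1) := by ring
        _ ≤ ((T + 1) * k1) * ((T + 1) * k1) := mul_le_mul_of_nonneg_right h2 (by positivity)
        _ = ((T + 1) * k1) ^ 2 := by ring
        _ ≤ _ := h1
        _ = _ := by ring
    exact le_of_mul_le_mul_right e1 hk0'
  have f2 : n * k1 ≤ b * (A + 1) * k1 := mul_le_mul_of_nonneg_right hn hk1.le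
  have f3 : ((b - (T + 1)) * A - C2) * k1 ≤ (T + 2) * k2 := by
    have e1 : T * (((b - (T + 1)) * A - C2) * k1) ≤ T * ((T + 2) * k2) := by
      have e2 : 0 ≤ (T - 1) * C2 * k1 := mul_nonneg (mul_nonneg (by linarith) hC20) hk1.le
      have e3 : T * (((b - (T + 1)) * A - C2) * k1) =
          ((b - T) * A - C') * ((T + 1) * k1) - b * (A + 1) * k1 - (T - 1) * C2 * k1 := by
        rw [hC2]; ring
      rw [e3]
      linarith
    exact le_of_mul_le_mul_left e1 (by linarith)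
  refine ⟨f3, ?_⟩
  have hE : 0 ≤ (b - (T + 1)) * A - C2 := by
    have : 1 * A ≤ (b - T - 1) * A := mul_le_mul_of_nonneg_right hbT (by linarith)
    have e1 : (b - (T + 1)) * A = (b - T - 1) * A := by ring
    rw [e1]
    linarith
  have f4 : ((b - (T + 1)) * A - C2) * (c1 * A ^ (t + 1)) ≤
      ((b - (T + 1)) * A - C2) * (k1 + D * A ^ t) := mul_le_mul_of_nonneg_left h3 hE
  have f5 : 0 ≤ C2 * (D * A ^ t) := by positivity
  have f6 : (T + 2) * (c2 * A ^ (t + 2)) ≤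
      (T + 2) * (k2 + (C2 * c1 + (b - T - 1) * D) * A ^ (t + 1)) := by
    have e1 : (T + 2) * (c2 * A ^ (t + 2)) = (b - T - 1) * c1 * A ^ (t + 2) := by rw [← hc]; ring
    have e2 : ((b - (T + 1)) * A - C2) * (c1 * A ^ (t + 1)) =
        (b - T - 1) * c1 * A ^ (t + 2) - C2 * c1 * A ^ (t + 1) := by ring
    have e3 : ((b - (T + 1)) * A - C2) * (k1 + D * A ^ t) =
        ((b - (T + 1)) * A - C2) * k1 + (b - T - 1) * D * A ^ (t + 1) - C2 * (D * A ^ t) := by ring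
    have e4 : 0 ≤ (C2 * c1 + (b - T - 1) * D) * A ^ (t + 1) := by
      have : 0 ≤ (b - T - 1) * D := mul_nonneg (by linarith) hD
      positivity
    have e5 : 1 * ((C2 * c1 + (b - T - 1) * D) * A ^ (t + 1)) ≤
        (T + 2) * ((C2 * c1 + (b - T - 1) * D) * A ^ (t + 1)) :=
      mul_le_mul_of_nonneg_right (by linarith) e4
    have e6 : (T + 2) * (k2 + (C2 * c1 + (b - T - 1) * D) * A ^ (t + 1)) = (T + 2) * k2 +
        (T + 2) * ((C2 * c1 + (b - T - 1) * D) * A ^ (t + 1)) := by ring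
    rw [e1, e6]
    rw [e2, e3] at f4
    linarith
  exact le_of_mul_le_mul_left f6 (by linarith)

/-- The chain. -/
theorem MMC_chain (p w : ℕ) (hwp : w ≤ p) (C₀ : ℝ) : ∀ j : ℕ, w + 1 + j + 1 ≤ p + 3 →
    ∃ (C' D : ℝ) (a₀ : ℕ), 0 ≤ C' ∧ 0 ≤ D ∧ 1 ≤ a₀ ∧ ∀ a ≥ a₀, ∀ {V : Type} [DecidableEq V]
    (G : SimpleGraph V) (W : Finset V), CB G W (p + 3) → W.card ≤ (p + 3) * (a + 1) →
    ((p + 3).choose (w + 2) : ℝ) * (a : ℝ) ^ (w + 2) ≤ kc G W (w + 2) + C₀ * (a : ℝ) ^ (w + 1) →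
    ((((p + 3 : ℕ) : ℝ) - ((w + 1 + j : ℕ) : ℝ)) * (a : ℝ) - C') * kc G W (w + 1 + j) ≤
      (((w + 1 + j : ℕ) : ℝ) + 1) * kc G W (w + 1 + j + 1) ∧
    ((p + 3).choose (w + 1 + j + 1) : ℝ) * (a : ℝ) ^ (w + 1 + j + 1) ≤
      kc G W (w + 1 + j + 1) + D * (a : ℝ) ^ (w + 1 + j) := by
  intro j
  induction j with
  | zero =>
    intro _
    set bt : ℝ := ((p + 3 : ℕ) : ℝ) - ((w + 1 + 0 : ℕ) : ℝ) with hbt
    set tt : ℝ := ((w + 1 + 0 : ℕ) : ℝ) + 1 with htt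
    have hbt1 : 1 ≤ bt := by
      rw [hbt]
      have : ((w + 1 + 0 : ℕ) : ℝ) + 1 ≤ ((p + 3 : ℕ) : ℝ) := by
        exact_mod_cast (by omega : w + 1 + 0 + 1 ≤ p + 3)
      linarith
    have htt0 : 0 ≤ tt := by rw [htt]; positivity
    obtain ⟨a₀, ha₀⟩ := exists_nat_ge (bt * 3 ^ (w + 1 + 0) + tt * |C₀|)
    refine ⟨bt * 3 ^ (w + 1 + 0) + tt * |C₀|, |C₀|, max a₀ 1, by positivity, abs_nonneg _,
      le_max_right _ _, ?_⟩
    intro a ha V _ G W hCB hW h
    have ha1 : a₀ ≤ a := (le_max_left _ _).trans ha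
    have ha2 : 1 ≤ a := (le_max_right _ _).trans ha
    have hA : (1 : ℝ) ≤ a := by exact_mod_cast ha2
    have h1 : ((p + 3).choose (w + 1 + 0 + 1) : ℝ) * (a : ℝ) ^ (w + 1 + 0 + 1) ≤
        kc G W (w + 1 + 0 + 1) + |C₀| * (a : ℝ) ^ (w + 1 + 0) := by
      refine h.trans ?_
      have : C₀ * (a : ℝ) ^ (w + 1) ≤ |C₀| * (a : ℝ) ^ (w + 1) :=
        mul_le_mul_of_nonneg_right (le_abs_self _) (by positivity)
      simpa using this
    refine ⟨?_, h1⟩
    have h2 := MMC_up2 G hCB hW (w + 1 + 0) (by omega)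
    have h3 : 1 ≤ (p + 3).choose (w + 1 + 0) := Nat.choose_pos (by omega)
    refine MMC_base (w + 1 + 0) hA (abs_nonneg _) hbt1 htt0 (by exact_mod_cast h3)
      (MMC_choose (by omega)) h1 h2 (ha₀.trans (by exact_mod_cast ha1))
  | succ j ih =>
    intro hj
    obtain ⟨C', D, a₀, hC, hD, ha₀, ih⟩ := ih (by omega)
    set b : ℝ := ((p + 3 : ℕ) : ℝ) with hb
    set T : ℝ := ((w + 1 + j : ℕ) : ℝ) with hT
    have hb0 : 0 ≤ b := by rw [hb]; positivity
    have hT1 : 1 ≤ T := by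
      rw [hT]
      exact_mod_cast (by omega : 1 ≤ w + 1 + j)
    have hbT : 1 ≤ b - T - 1 := by
      have : T + 1 + 1 ≤ b := by
        rw [hT, hb]
        exact_mod_cast (by omega : w + 1 + j + 1 + 1 ≤ p + 3)
      linarith
    obtain ⟨a₁, ha₁⟩ := exists_nat_ge ((T + 1) * C' + b + D + 1)
    have hT2 : ((w + 1 + (j + 1) : ℕ) : ℝ) = T + 1 := by
      rw [hT]
      push_cast
      ring
    refine ⟨(T + 1) * C' + b, ((T + 1) * C' + b) * ((p + 3).choose (w + 1 + j + 1) : ℝ) +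
      (b - T - 1) * D, max a₀ a₁, by positivity, ?_, le_max_of_le_left ha₀, ?_⟩
    · have : 0 ≤ (b - T - 1) * D := mul_nonneg (by linarith) hD
      positivity
    · intro a ha V _ G W hCB hW h
      have ha1 : a₀ ≤ a := (le_max_left _ _).trans ha
      have ha2 : a₁ ≤ a := (le_max_right _ _).trans ha
      have hA : (1 : ℝ) ≤ a := by exact_mod_cast (ha₀.trans ha1)
      have hA2 : (T + 1) * C' + b + D + 1 ≤ a := ha₁.trans (by exact_mod_cast ha2)
      have hTC : 0 ≤ (T + 1) * C' := by positivity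
      obtain ⟨i1, i2⟩ := ih a ha1 G W hCB hW h
      have h3 : 1 ≤ (p + 3).choose (w + 1 + j + 1) := Nat.choose_pos (by omega)
      have hW' : (W.card : ℝ) ≤ b * ((a : ℝ) + 1) := by
        rw [hb]
        exact_mod_cast hW
      have hmm := MMC_mmr G W (w + 1 + j)
      rw [← hT] at hmm
      have hc := MMC_choose (b := p + 3) (t := w + 1 + j + 1) (by omega)
      have hc' : (T + 2) * ((p + 3).choose (w + 1 + j + 1 + 1) : ℝ) =
          (b - T - 1) * ((p + 3).choose (w + 1 + j + 1) : ℝ) := by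
        have e1 : ((w + 1 + j + 1 : ℕ) : ℝ) = T + 1 := by rw [hT]; push_cast; ring
        rw [e1] at hc
        calc (T + 2) * ((p + 3).choose (w + 1 + j + 1 + 1) : ℝ) =
              (T + 1 + 1) * ((p + 3).choose (w + 1 + j + 1 + 1) : ℝ) := by ring
          _ = (b - (T + 1)) * ((p + 3).choose (w + 1 + j + 1) : ℝ) := hc
          _ = _ := by ring
      have key := MMC_step (w + 1 + j) hA hb0 hT1 hC hD (by exact_mod_cast h3) hbT hc' hW'
        (Nat.cast_nonneg (kc G W (w + 1 + j))) (Nat.cast_nonneg (kc G W (w + 1 + j + 2)))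
        hmm i1 i2 (by linarith) (by linarith)
      rw [hT2]
      refine ⟨?_, key.2⟩
      calc _ ≤ _ := key.1
        _ = _ := by ring_nf

/-- **(MMC)** -/
theorem MMC_thm : MMCStmt := by
  intro p w hwp C₀
  obtain ⟨C', D, a₀, hC, hD, ha₀, h⟩ := MMC_chain p w hwp C₀ (p + 1 - w) (by omega)
  have e1 : w + 1 + (p + 1 - w) = p + 2 := by omega
  rw [e1] at h
  obtain ⟨M, hM⟩ := exists_nat_ge D
  refine ⟨2 * M, max a₀ (2 * M), ?_⟩
  intro a ha V _ G W hCB hW h1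
  have ha1 : a₀ ≤ a := (le_max_left _ _).trans ha
  have ha2 : 2 * M ≤ a := (le_max_right _ _).trans ha
  obtain ⟨-, h2⟩ := h a ha1 G W hCB hW h1
  have h3 : ((p + 3).choose (p + 2 + 1) : ℝ) = 1 := by
    rw [show p + 2 + 1 = p + 3 from rfl, Nat.choose_self, Nat.cast_one]
  rw [h3, one_mul] at h2
  have hA2 : 2 * (M : ℝ) ≤ a := by exact_mod_cast ha2
  have hM0 : (0 : ℝ) ≤ M := Nat.cast_nonneg M
  set A : ℝ := (a : ℝ) with hA
  have hA0 : 0 ≤ A := by rw [hA]; positivity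
  have h4 : A ^ (p + 3) ≤ (kc G W (p + 3) : ℝ) + M * A ^ (p + 2) := by
    have : D * A ^ (p + 2) ≤ M * A ^ (p + 2) := mul_le_mul_of_nonneg_right hM (by positivity)
    exact h2.trans (by linarith)
  have h5 : A ^ (p + 4) ≤ (A + 2 * M) * kc G W (p + 3) := by
    have e2 : (A + 2 * M) * A ^ (p + 3) ≤ (A + 2 * M) * ((kc G W (p + 3) : ℝ) + M * A ^ (p + 2)) :=
      mul_le_mul_of_nonneg_left h4 (by positivity)
    have e3 : 2 * (M : ℝ) * (M * A ^ (p + 2)) ≤ A * (M * A ^ (p + 2)) :=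
      mul_le_mul_of_nonneg_right hA2 (by positivity)
    have e4 : (A + 2 * M) * A ^ (p + 3) = A ^ (p + 4) + 2 * (M * A ^ (p + 3)) := by ring
    have e5 : A * (M * A ^ (p + 2)) = M * A ^ (p + 3) := by ring
    have e6 : (A + 2 * M) * ((kc G W (p + 3) : ℝ) + M * A ^ (p + 2)) =
        (A + 2 * M) * (kc G W (p + 3) : ℝ) + A * (M * A ^ (p + 2)) +
          2 * (M : ℝ) * (M * A ^ (p + 2)) := by ring
    rw [e4, e6] at e2
    rw [e5] at e2 e3
    linarith
  rw [hA] at h5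
  exact_mod_cast h5

end Pool.GT7
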